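import Pool.Agent.NH65.CP.Example

set_option autoImplicit false

/-!
Three commuting unital normal completely positive maps on `B(ℂ¹⁰)` whose semigroup over `ℕ³` has
no dilation at all.
-/

namespace Pool.Agent.Results.MP_0a86e9_an.NoDilation

open Pool.Agent.NH65.CP
open scoped InnerProductSpace ComplexOrder
open Filter Topology ContinuousLinearMap

universe u v

section definitions

variable {H : Type u} [NormedAddCommGroup H] [InnerProductSpace ℂ H] [CompleteSpace H]

/-- `T : B(H) → B(H)` is linear. -/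
def IsLin (T : (H →L[ℂ] H) → (H →L[ℂ] H)) : Prop :=
  (∀ a b, T (a + b) = T a + T b) ∧ ∀ (c : ℂ) (a), T (c • a) = c • T a

/-- `T : B(H) → B(H)` is completely positive: it is linear and `∑ᵢⱼ ⟪hᵢ, T(aᵢ* aⱼ) hⱼ⟫ ≥ 0` for
all finite families `aᵢ` in `B(H)` and `hᵢ` in `H`. -/
def IsCP (T : (H →L[ℂ] H) → (H →L[ℂ] H)) : Prop :=
  IsLin T ∧ ∀ (n : ℕ) (a : Fin n → H →L[ℂ] H) (h : Fin n → H),
    0 ≤ ∑ i, ∑ j, ⟪h i, T (star (a i) * a j) (h j)⟫_ℂ

/-- `T : B(H) → B(H)` is normal: on norm bounded sets it is continuous for the weak operator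
topology. -/
def IsNormal (T : (H →L[ℂ] H) → (H →L[ℂ] H)) : Prop :=
  ∀ (l : Filter (H →L[ℂ] H)) (a : H →L[ℂ] H) (C : ℝ), (∀ᶠ b in l, ‖b‖ ≤ C) →
    (∀ x y : H, Tendsto (fun b : H →L[ℂ] H => ⟪x, b y⟫_ℂ) l (𝓝 ⟪x, a y⟫_ℂ)) →
    ∀ x y : H, Tendsto (fun b => ⟪x, T b y⟫_ℂ) l (𝓝 ⟪x, T a y⟫_ℂ)

/-- `T : B(H) → B(H)` is contractive. -/
def IsContractive (T : (H →L[ℂ] H) → (H →L[ℂ] H)) : Prop := ∀ a, ‖T a‖ ≤ ‖a‖

/-- The family `T_s = T₀^{s₀} T₁^{s₁} T₂^{s₂}`, `s ∈ ℕ³`, generated by a triple of maps. -/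
def family (T : Fin 3 → (H →L[ℂ] H) → (H →L[ℂ] H)) (s : Fin 3 → ℕ) :
    (H →L[ℂ] H) → (H →L[ℂ] H) :=
  (T 0)^[s 0] ∘ (T 1)^[s 1] ∘ (T 2)^[s 2]

/-- For an operator `a` on `H` and an isometry `ι : H → K`, the operator `ι a ι*` on `K`; it is the
copy of `a` living on the subspace `ι H` of `K`. -/
noncomputable def lift {K : Type v} [NormedAddCommGroup K] [InnerProductSpace ℂ K]
    [CompleteSpace K] (ι : H →ₗᵢ[ℂ] K) (a : H →L[ℂ] H) : K →L[ℂ] K :=
  ι.toContinuousLinearMap ∘L a ∘L adjoint ι.toContinuousLinearMap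

/-- For an operator `b` on `K` and an isometry `ι : H → K`, the compression `ι* b ι` of `b`
to `H`. -/
noncomputable def compress {K : Type v} [NormedAddCommGroup K] [InnerProductSpace ℂ K]
    [CompleteSpace K] (ι : H →ₗᵢ[ℂ] K) (b : K →L[ℂ] K) : H →L[ℂ] H :=
  adjoint ι.toContinuousLinearMap ∘L b ∘L ι.toContinuousLinearMap

/-- A star endomorphism of a von Neumann algebra `B` on `K` (not required to be unital or
normal). -/
structure IsStarEndo {K : Type v} [NormedAddCommGroup K] [InnerProductSpace ℂ K]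
    [CompleteSpace K] (B : VonNeumannAlgebra K) (θ : (K →L[ℂ] K) → (K →L[ℂ] K)) : Prop where
  mem : ∀ b ∈ B, θ b ∈ B
  add : ∀ b ∈ B, ∀ c ∈ B, θ (b + c) = θ b + θ c
  smul : ∀ z : ℂ, ∀ b ∈ B, θ (z • b) = z • θ b
  mul : ∀ b ∈ B, ∀ c ∈ B, θ (b * c) = θ b * θ c
  star : ∀ b ∈ B, θ (star b) = star (θ b)

/-- A dilation, on the Hilbert space `K`, of a family `T` over `ℕᵏ` of maps on the von
Neumann algebra `B(H)`: `H` sits in `K` through the isometry `ι`; `B` is a von Neumann algebra
on `K` with `B(H) = p B p` for the projection `p = ι ι*` (the field `corner`; at `a = 1` it says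
`p ∈ B`); `θ` is a semigroup over `ℕᵏ` of star endomorphisms of `B`,
neither minimality nor normality being imposed; and `T_s(a) = p θ_s(a) p`. -/
structure Dilation {k : ℕ} (T : (Fin k → ℕ) → (H →L[ℂ] H) → (H →L[ℂ] H))
    (K : Type v) [NormedAddCommGroup K] [InnerProductSpace ℂ K] [CompleteSpace K] where
  /-- the inclusion of `H` in `K` -/
  ι : H →ₗᵢ[ℂ] K
  /-- the von Neumann algebra on `K` -/
  B : VonNeumannAlgebra K
  corner : ∀ a : H →L[ℂ] H, lift ι a ∈ B
  /-- the endomorphisms -/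
  θ : (Fin k → ℕ) → (K →L[ℂ] K) → (K →L[ℂ] K)
  endo : ∀ s, IsStarEndo B (θ s)
  zero : ∀ b ∈ B, θ 0 b = b
  add : ∀ s t, ∀ b ∈ B, θ (s + t) b = θ s (θ t b)
  dilates : ∀ s a, T s a = compress ι (θ s (lift ι a))

/-- The map `a ↦ ∑ₖ Sₖ* a Sₖ` on `B(H)`. -/
noncomputable def krausMap {κ : Type} [Fintype κ] (S : κ → H →L[ℂ] H) (a : H →L[ℂ] H) :
    H →L[ℂ] H :=
  ∑ k, star (S k) * a * S k

end definitions

/-- The Hilbert space `ℂ¹⁰`. -/
abbrev H10 : Type := EuclideanSpace ℂ (Fin 10)

/-- The operator on `ℂ¹⁰` with a given matrix. -/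
noncomputable def op (M : Matrix (Fin 10) (Fin 10) ℂ) : H10 →L[ℂ] H10 :=
  Matrix.toEuclideanCLM (𝕜 := ℂ) (n := Fin 10) M

/-- The three maps. Their Kraus operators are partial isometries and projections given by
explicit `10 × 10` integer matrices. -/
noncomputable def triple : Fin 3 → (H10 →L[ℂ] H10) → (H10 →L[ℂ] H10) :=
  ![krausMap fun k => op (S1 k), krausMap fun k => op (S2 k), krausMap fun k => op (S3 k)]

theorem triple_zero : triple 0 = krausMap fun k => op (S1 k) := rfl
theorem triple_one : triple 1 = krausMap fun k => op (S2 k) := rfl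
theorem triple_two : triple 2 = krausMap fun k => op (S3 k) := rfl

section proofs

variable {H : Type u} [NormedAddCommGroup H] [InnerProductSpace ℂ H] [CompleteSpace H]

omit [CompleteSpace H] in
theorem inner_self' (v : H) : ⟪v, v⟫_ℂ = ((‖v‖ ^ 2 : ℝ) : ℂ) := by
  rw [inner_self_eq_norm_sq_to_K]
  push_cast
  rfl

theorem inner_krausMap {κ : Type} [Fintype κ] (S : κ → H →L[ℂ] H)
    (a : H →L[ℂ] H) (x y : H) :
    ⟪x, krausMap S a y⟫_ℂ = ∑ k, ⟪S k x, a (S k y)⟫_ℂ := by
  rw [krausMap, _root_.sum_apply, inner_sum]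
  apply Finset.sum_congr rfl
  intro k _
  have : (star (S k) * (a : H →L[ℂ] H) * S k) y = star (S k) ((a : H →L[ℂ] H) (S k y)) := rfl
  rw [this, ContinuousLinearMap.star_eq_adjoint, ContinuousLinearMap.adjoint_inner_right]

theorem krausMap_normal {κ : Type} [Fintype κ] (S : κ → H →L[ℂ] H) :
    IsNormal (krausMap S) := by
  intro l a C _ h x y
  simp only [inner_krausMap]
  exact tendsto_finsetSum _ fun k _ => h _ _

theorem krausMap_lin {κ : Type} [Fintype κ] (S : κ → H →L[ℂ] H) :
    IsLin (krausMap S) := by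
  constructor
  · intro a b
    simp only [krausMap, mul_add, add_mul, Finset.sum_add_distrib]
  · intro c a
    simp only [krausMap, mul_smul_comm, smul_mul_assoc, Finset.smul_sum]

theorem krausMap_cp {κ : Type} [Fintype κ] (S : κ → H →L[ℂ] H) :
    IsCP (krausMap S) := by
  refine ⟨krausMap_lin S, ?_⟩
  intro n a h
  have h1 : ∑ i, ∑ j, ⟪h i, krausMap S (star (a i) * a j) (h j)⟫_ℂ =
      ∑ k, ⟪∑ i, a i (S k (h i)), ∑ j, a j (S k (h j))⟫_ℂ := by
    have e1 : ∀ i j, ⟪h i, krausMap S (star (a i) * a j) (h j)⟫_ℂ =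
        ∑ k, ⟪a i (S k (h i)), a j (S k (h j))⟫_ℂ := by
      intro i j
      rw [inner_krausMap]
      apply Finset.sum_congr rfl
      intro k _
      have : (star (a i) * a j) (S k (h j)) = adjoint (a i) ((a j) (S k (h j))) := rfl
      rw [this, ContinuousLinearMap.adjoint_inner_right]
    simp only [e1]
    calc ∑ i, ∑ j, ∑ k, ⟪a i (S k (h i)), a j (S k (h j))⟫_ℂ
        = ∑ i, ∑ k, ∑ j, ⟪a i (S k (h i)), a j (S k (h j))⟫_ℂ := by
          apply Finset.sum_congr rfl
          intro i _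
          exact Finset.sum_comm
      _ = ∑ k, ∑ i, ∑ j, ⟪a i (S k (h i)), a j (S k (h j))⟫_ℂ :=
          Finset.sum_comm
      _ = _ := by
          apply Finset.sum_congr rfl
          intro k _
          rw [sum_inner]
          apply Finset.sum_congr rfl
          intro i _
          rw [inner_sum]
  rw [h1]
  apply Finset.sum_nonneg
  intro k _
  rw [inner_self']
  exact Complex.zero_le_real.mpr (sq_nonneg _)

theorem sum_norm_sq {κ : Type} [Fintype κ] (S : κ → H →L[ℂ] H)
    (hS : ∑ k, star (S k) * S k = 1) (x : H) : ∑ k, ‖S k x‖ ^ 2 = ‖x‖ ^ 2 := by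
  have h1 : (⟪x, (∑ k, star (S k) * S k) x⟫_ℂ) = ⟪x, x⟫_ℂ := by rw [hS]; rfl
  rw [_root_.sum_apply, inner_sum] at h1
  have h2 : ∀ k, ⟪x, (star (S k) * S k) x⟫_ℂ = ((‖S k x‖ ^ 2 : ℝ) : ℂ) := by
    intro k
    have : (star (S k) * S k) x = adjoint (S k) (S k x) := rfl
    rw [this, ContinuousLinearMap.adjoint_inner_right, inner_self']
  simp only [h2, inner_self', ← Complex.ofReal_sum] at h1
  exact Complex.ofReal_injective h1

theorem krausMap_contractive {κ : Type} [Fintype κ] (S : κ → H →L[ℂ] H)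
    (hS : ∑ k, star (S k) * S k = 1) : IsContractive (krausMap S) := by
  intro a
  apply ContinuousLinearMap.opNorm_le_bound _ (norm_nonneg _)
  intro y
  set x := krausMap S a y with hx
  have h1 : (‖x‖ ^ 2 : ℝ) = ‖⟪x, krausMap S a y⟫_ℂ‖ := by
    rw [← hx, inner_self_eq_norm_sq_to_K]; simp
  have h2 : ‖x‖ ^ 2 ≤ ‖a‖ * (‖x‖ * ‖y‖) := by
    rw [h1, inner_krausMap]
    calc ‖∑ k, ⟪S k x, a (S k y)⟫_ℂ‖
        ≤ ∑ k, ‖⟪S k x, a (S k y)⟫_ℂ‖ := norm_sum_le _ _
      _ ≤ ∑ k, ‖a‖ * (‖S k x‖ * ‖S k y‖) := by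
          apply Finset.sum_le_sum
          intro k _
          calc ‖⟪S k x, a (S k y)⟫_ℂ‖ ≤ ‖S k x‖ * ‖a (S k y)‖ :=
                norm_inner_le_norm _ _
            _ ≤ ‖S k x‖ * (‖a‖ * ‖S k y‖) :=
                mul_le_mul_of_nonneg_left (ContinuousLinearMap.le_opNorm _ _) (norm_nonneg _)
            _ = _ := by ring
      _ = ‖a‖ * ∑ k, ‖S k x‖ * ‖S k y‖ := by rw [Finset.mul_sum]
      _ ≤ ‖a‖ * (‖x‖ * ‖y‖) := by
          apply mul_le_mul_of_nonneg_left _ (norm_nonneg _)
          calc ∑ k, ‖S k x‖ * ‖S k y‖ ≤ √(∑ k, ‖S k x‖ ^ 2) * √(∑ k, ‖S k y‖ ^ 2) :=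
                Real.sum_mul_le_sqrt_mul_sqrt _ _ _
            _ = ‖x‖ * ‖y‖ := by
                rw [sum_norm_sq S hS, sum_norm_sq S hS, Real.sqrt_sq (norm_nonneg _),
                  Real.sqrt_sq (norm_nonneg _)]
  rcases (norm_nonneg x).eq_or_lt with h0 | h0
  · rw [← h0]; positivity
  · have : ‖x‖ * ‖x‖ ≤ ‖x‖ * (‖a‖ * ‖y‖) := by nlinarith [h2]
    exact le_of_mul_le_mul_left this h0

theorem krausMap_one {κ : Type} [Fintype κ] (S : κ → H →L[ℂ] H)
    (hS : ∑ k, star (S k) * S k = 1) : krausMap S 1 = 1 := by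
  simp only [krausMap, mul_one, hS]

theorem krausMap_comp {κ κ' : Type} [Fintype κ] [Fintype κ'] (S : κ → H →L[ℂ] H)
    (S' : κ' → H →L[ℂ] H) (a : H →L[ℂ] H) :
    krausMap S (krausMap S' a) =
      ∑ k, ∑ l, star (S' l * S k) * (a : H →L[ℂ] H) * (S' l * S k) := by
  rw [krausMap]
  apply Finset.sum_congr rfl
  intro k _
  rw [krausMap, Finset.mul_sum, Finset.sum_mul]
  apply Finset.sum_congr rfl
  intro l _
  rw [star_mul]
  simp only [mul_assoc]

end proofs

theorem op_mul (M N : Matrix (Fin 10) (Fin 10) ℂ) : op (M * N) = op M * op N := map_mul _ _ _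

theorem op_star (M : Matrix (Fin 10) (Fin 10) ℂ) : op (star M) = star (op M) := map_star _ _

theorem op_neg (M : Matrix (Fin 10) (Fin 10) ℂ) : op (-M) = -op M := map_neg _ _

theorem op_one : op 1 = 1 := map_one _

theorem op_sum {κ : Type} [Fintype κ] (M : κ → Matrix (Fin 10) (Fin 10) ℂ) :
    op (∑ k, M k) = ∑ k, op (M k) := map_sum _ _ _

theorem comm12 (a : H10 →L[ℂ] H10) :
    krausMap (fun k => op (S1 k)) (krausMap (fun k => op (S2 k)) a) =
      krausMap (fun k => op (S2 k)) (krausMap (fun k => op (S1 k)) a) := by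
  rw [krausMap_comp, krausMap_comp, Finset.sum_comm]
  apply Finset.sum_congr rfl
  intro l _
  apply Finset.sum_congr rfl
  intro k _
  rw [← op_mul, ← op_mul, S12]
  split_ifs
  · rw [neg_smul, one_smul, op_neg, star_neg]
    simp only [neg_mul, mul_neg, neg_neg]
  · rw [one_smul]

theorem comm23 (a : H10 →L[ℂ] H10) :
    krausMap (fun k => op (S2 k)) (krausMap (fun k => op (S3 k)) a) =
      krausMap (fun k => op (S3 k)) (krausMap (fun k => op (S2 k)) a) := by
  rw [krausMap_comp, krausMap_comp, Finset.sum_comm]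
  apply Finset.sum_congr rfl
  intro l _
  apply Finset.sum_congr rfl
  intro k _
  rw [← op_mul, ← op_mul, S23]

theorem sw_bij (l : Fin 2) : Function.Bijective (sw l) := by
  revert l; decide +kernel

theorem comm13 (a : H10 →L[ℂ] H10) :
    krausMap (fun k => op (S1 k)) (krausMap (fun k => op (S3 k)) a) =
      krausMap (fun k => op (S3 k)) (krausMap (fun k => op (S1 k)) a) := by
  rw [krausMap_comp, krausMap_comp, Finset.sum_comm]
  apply Finset.sum_congr rfl
  intro l _
  have : ∀ k, op (S1 k) * op (S3 l) = op (S3 l) * op (S1 (sw l k)) := by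
    intro k
    rw [← op_mul, ← op_mul, S13]
  simp only [this]
  exact ((sw_bij l).sum_comp
    (fun k => star (op (S3 l) * op (S1 k)) * (a : H10 →L[ℂ] H10) * (op (S3 l) * op (S1 k)))).symm

theorem unital1 : ∑ k, star (op (S1 k)) * op (S1 k) = 1 := by
  simp only [← op_star, ← op_mul, ← op_sum, S1_unital, op_one]
theorem unital2 : ∑ k, star (op (S2 k)) * op (S2 k) = 1 := by
  simp only [← op_star, ← op_mul, ← op_sum, S2_unital, op_one]
theorem unital3 : ∑ k, star (op (S3 k)) * op (S3 k) = 1 := by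
  simp only [← op_star, ← op_mul, ← op_sum, S3_unital, op_one]

section nodil

variable {K : Type v} [NormedAddCommGroup K] [InnerProductSpace ℂ K] [CompleteSpace K]

theorem adjoint_comp_self (ι : H10 →ₗᵢ[ℂ] K) :
    adjoint ι.toContinuousLinearMap ∘L ι.toContinuousLinearMap = ContinuousLinearMap.id ℂ H10 := by
  ext1 x
  apply ext_inner_left ℂ
  intro y
  rw [ContinuousLinearMap.comp_apply, ContinuousLinearMap.adjoint_inner_right]
  exact ι.inner_map_map _ _

theorem adjoint_apply_self (ι : H10 →ₗᵢ[ℂ] K) (x : H10) :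
    adjoint ι.toContinuousLinearMap (ι x) = x := by
  exact DFunLike.congr_fun (adjoint_comp_self ι) x

theorem lift_mul (ι : H10 →ₗᵢ[ℂ] K) (a b : H10 →L[ℂ] H10) :
    lift ι (a * b) = lift ι a * lift ι b := by
  ext1 x
  change ι (a (b _)) = ι (a (adjoint ι.toContinuousLinearMap (ι (b _))))
  rw [adjoint_apply_self]

theorem lift_star (ι : H10 →ₗᵢ[ℂ] K) (a : H10 →L[ℂ] H10) :
    lift ι (star a) = star (lift ι a) := by
  unfold lift
  rw [ContinuousLinearMap.star_eq_adjoint, ContinuousLinearMap.star_eq_adjoint,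
    ContinuousLinearMap.adjoint_comp, ContinuousLinearMap.adjoint_comp,
    ContinuousLinearMap.adjoint_adjoint, ContinuousLinearMap.comp_assoc]

theorem lift_one_mul_lift_one (ι : H10 →ₗᵢ[ℂ] K) (b : K →L[ℂ] K) :
    lift ι 1 * b * lift ι 1 = lift ι (compress ι b) := by
  ext1 x
  rfl

variable {T : (Fin 3 → ℕ) → (H10 →L[ℂ] H10) → (H10 →L[ℂ] H10)}

/-- The embedding of the matrix algebra as a corner of `B`. -/
noncomputable def phi (D : Dilation T K) :
    Matrix (Fin 10) (Fin 10) ℂ →⋆ₙₐ[ℂ] D.B.toStarSubalgebra where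
  toFun M := ⟨lift D.ι (op M), D.corner _⟩
  map_smul' c M := by
    apply Subtype.ext
    change lift D.ι (op (c • M)) = c • lift D.ι (op M)
    have : op (c • M) = c • op M := map_smul _ _ _
    rw [this]
    unfold lift
    rw [ContinuousLinearMap.smul_comp, ContinuousLinearMap.comp_smul]
  map_zero' := by
    apply Subtype.ext
    change lift D.ι (op 0) = 0
    have : op 0 = 0 := map_zero _
    rw [this]
    unfold lift
    rw [ContinuousLinearMap.zero_comp, ContinuousLinearMap.comp_zero]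
  map_add' M N := by
    apply Subtype.ext
    change lift D.ι (op (M + N)) = lift D.ι (op M) + lift D.ι (op N)
    have : op (M + N) = op M + op N := map_add _ _ _
    rw [this]
    unfold lift
    rw [ContinuousLinearMap.add_comp, ContinuousLinearMap.comp_add]
  map_mul' M N := by
    apply Subtype.ext
    change lift D.ι (op (M * N)) = lift D.ι (op M) * lift D.ι (op N)
    rw [op_mul, lift_mul]
  map_star' M := by
    apply Subtype.ext
    change lift D.ι (op (star M)) = star (lift D.ι (op M))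
    rw [op_star, lift_star]

/-- The endomorphisms as bundled star homomorphisms. -/
noncomputable def endo (D : Dilation T K) (s : Fin 3 → ℕ) :
    D.B.toStarSubalgebra →⋆ₙₐ[ℂ] D.B.toStarSubalgebra where
  toFun b := ⟨D.θ s b, (D.endo s).mem _ b.2⟩
  map_smul' c b := Subtype.ext ((D.endo s).smul c b b.2)
  map_zero' := by
    apply Subtype.ext
    have h := (D.endo s).smul 0 0 (D.B.toStarSubalgebra.zero_mem)
    rw [zero_smul, zero_smul] at h
    exact h
  map_add' b c := Subtype.ext ((D.endo s).add b b.2 c c.2)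
  map_mul' b c := Subtype.ext ((D.endo s).mul b b.2 c c.2)
  map_star' b := Subtype.ext ((D.endo s).star b b.2)

theorem family_apply (D : Dilation T K) (s : Fin 3 → ℕ) {κ : Type} [Fintype κ]
    (S : κ → Matrix (Fin 10) (Fin 10) ℂ) (hT : T s = krausMap fun k => op (S k))
    (M : Matrix (Fin 10) (Fin 10) ℂ) :
    phi D 1 * endo D s (phi D M) * phi D 1 = phi D (∑ k, star (S k) * M * S k) := by
  apply Subtype.ext
  change lift D.ι (op 1) * (D.θ s (lift D.ι (op M))) * lift D.ι (op 1) = lift D.ι (op _)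
  rw [op_one, lift_one_mul_lift_one, ← D.dilates s (op M), hT, krausMap]
  congr 1
  rw [op_sum]
  apply Finset.sum_congr rfl
  intro k _
  rw [op_mul, op_mul, op_star]

theorem noDilation (D : Dilation (family triple) K) : False := by
  have e1 : family triple (Pi.single 0 1) = krausMap fun k => op (S1 k) := by
    simp [family, triple]
  have e2 : family triple (Pi.single 1 1) = krausMap fun k => op (S2 k) := by
    simp [family, triple]
  have e3 : family triple (Pi.single 2 1) = krausMap fun k => op (S3 k) := by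
    simp [family, triple]
  have hprop : ∀ x : D.B.toStarSubalgebra, star x * x = 0 → x = 0 := by
    intro x hx
    apply Subtype.ext
    have h1 : star (x : K →L[ℂ] K) * (x : K →L[ℂ] K) = 0 := congrArg Subtype.val hx
    exact CStarRing.star_mul_self_eq_zero_iff _ |>.mp h1
  have comm : ∀ s t b, endo D s (endo D t b) = endo D t (endo D s b) := by
    intro s t b
    apply Subtype.ext
    change D.θ s (D.θ t b) = D.θ t (D.θ s b)
    rw [← D.add s t b b.2, ← D.add t s b b.2, add_comm]
  have h := no_projection (phi D) (endo D (Pi.single 0 1)) (endo D (Pi.single 1 1))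
    (endo D (Pi.single 2 1)) hprop (family_apply D _ S1 e1) (family_apply D _ S2 e2)
    (family_apply D _ S3 e3) (comm _ _) (comm _ _) (comm _ _)
  have h0 : lift D.ι (op 1) = 0 := congrArg Subtype.val h
  rw [op_one] at h0
  have h1 : ∀ x : H10, x = 0 := by
    intro x
    have h2 : lift D.ι 1 (D.ι x) = D.ι x := by
      change D.ι (adjoint D.ι.toContinuousLinearMap (D.ι x)) = D.ι x
      rw [adjoint_apply_self]
    rw [h0] at h2
    have h3 : D.ι x = 0 := by rw [← h2]; rfl
    exact D.ι.injective (by rw [h3, map_zero])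
  have h4 := h1 (EuclideanSpace.single 0 1)
  have h5 := congrArg (fun v : H10 => v 0) h4
  simp at h5

end nodil

/-- There are three commuting unital normal completely positive (and contractive) maps on
`B(ℂ¹⁰)` such that the associated semigroup over `ℕ³` has no dilation on any Hilbert space. -/
theorem result :
    (∀ i, IsCP (triple i) ∧ IsNormal (triple i) ∧ IsContractive (triple i) ∧ triple i 1 = 1) ∧
    (∀ i j a, triple i (triple j a) = triple j (triple i a)) ∧
    ∀ (K : Type v) [NormedAddCommGroup K] [InnerProductSpace ℂ K] [CompleteSpace K],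
      IsEmpty (Dilation (family triple) K) := by
  refine ⟨?_, ?_, ?_⟩
  · intro i
    match i with
    | 0 =>
      rw [triple_zero]
      exact ⟨krausMap_cp _, krausMap_normal _, krausMap_contractive _ unital1,
        krausMap_one _ unital1⟩
    | 1 =>
      rw [triple_one]
      exact ⟨krausMap_cp _, krausMap_normal _, krausMap_contractive _ unital2,
        krausMap_one _ unital2⟩
    | 2 =>
      rw [triple_two]
      exact ⟨krausMap_cp _, krausMap_normal _, krausMap_contractive _ unital3,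
        krausMap_one _ unital3⟩
  · intro i j a
    match i, j with
    | 0, 0 => rfl
    | 1, 1 => rfl
    | 2, 2 => rfl
    | 0, 1 => rw [triple_zero, triple_one]; exact comm12 a
    | 0, 2 => rw [triple_zero, triple_two]; exact comm13 a
    | 1, 2 => rw [triple_one, triple_two]; exact comm23 a
    | 1, 0 => rw [triple_zero, triple_one]; exact (comm12 a).symm
    | 2, 0 => rw [triple_zero, triple_two]; exact (comm13 a).symm
    | 2, 1 => rw [triple_one, triple_two]; exact (comm23 a).symm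
  · intro K _ _ _
    exact ⟨fun D => noDilation D⟩

end Pool.Agent.Results.MP_0a86e9_an.NoDilation
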